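import Mathlib
import Pool.Prelude.Def_F_c31e40fa
import Pool.Agent.H712R2.MultiCoarse2

set_option autoImplicit false

open Complex Set Topology Filter Bornology N62a1eb23 Pool.Agent.H712R2

namespace Pool.Agent.N228.LC

/-- open sector of directions between `a` and `b` -/
def sector (a b : ℝ) : Set ℂ := Complex.exp '' {w : ℂ | a < w.im ∧ w.im < b}

theorem isOpen_sector (a b : ℝ) : IsOpen (sector a b) := by
  apply isOpenMap_exp
  exact (isOpen_lt continuous_const Complex.continuous_im).inter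
    (isOpen_lt Complex.continuous_im continuous_const)

theorem sector_disj {a b c : ℝ} (h3 : c ≤ a + 2 * Real.pi) :
    sector a b ∩ sector b c = ∅ := by
  rw [Set.eq_empty_iff_forall_notMem]
  rintro z ⟨⟨w, ⟨h1, h2⟩, rfl⟩, ⟨w', ⟨h4, h5⟩, he⟩⟩
  rw [Complex.exp_eq_exp_iff_exists_int] at he
  obtain ⟨k, hk⟩ := he
  have hi : w'.im = w.im + k * (2 * Real.pi) := by
    rw [hk]; simp
  have hpi := Real.pi_pos
  have hk0 : 0 < (k:ℝ) * (2 * Real.pi) := by linarith
  have hk1 : (k:ℝ) * (2 * Real.pi) < 1 * (2 * Real.pi) := by linarith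
  have hk2 : (k:ℝ) < 1 := lt_of_mul_lt_mul_right hk1 (by positivity)
  have hk3 : (0:ℝ) < k := by
    by_contra hh
    push Not at hh
    nlinarith
  have h6 : k < 1 := by exact_mod_cast hk2
  have h7 : 0 < k := by exact_mod_cast hk3
  omega

/-- A connected part of the Multibrot set which meets a sector between consecutive cusp directions
and is not contained in it comes at least as close to `0` as the cusps. -/
theorem sep {d : ℕ} (hd : 2 ≤ d) (j : ℤ) {S : Set ℂ} (hS : S ⊆ multibrotSet d)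
    (hc : IsPreconnected S) {x y : ℂ} (hx : x ∈ S) (hy : y ∈ S)
    (hxs : x ∈ sector (th d j) (th d (j + 1))) (hys : y ∉ sector (th d j) (th d (j + 1))) :
    ∃ p ∈ S, ‖p‖ ≤ rr d := by
  by_contra hcon
  push Not at hcon
  have hrr := rr_pos hd
  have hpi := Real.pi_pos
  have hcov : ∀ z ∈ S, z ∈ sector (th d j) (th d (j + 1)) ∨
      z ∈ sector (th d (j + 1)) (th d j + 2 * Real.pi) := by
    intro z hz
    have hzr := hcon z hz
    have hz0 : z ≠ 0 := norm_pos_iff.mp (hrr.trans hzr)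
    set w := Complex.log z with hw
    have hwz : Complex.exp w = z := Complex.exp_log hz0
    set k : ℤ := ⌊(w.im - th d j) / (2 * Real.pi)⌋ with hk
    set w' : ℂ := w - ((k:ℝ) * (2 * Real.pi) : ℝ) * I with hw'
    have hw'z : Complex.exp w' = z := by
      rw [← hwz, Complex.exp_eq_exp_iff_exists_int]
      refine ⟨-k, ?_⟩
      rw [hw']; push_cast; ring
    have him : w'.im = w.im - k * (2 * Real.pi) := by
      rw [hw']; simp
    have h1 : th d j ≤ w'.im := by
      have := Int.floor_le ((w.im - th d j) / (2 * Real.pi))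
      rw [← hk, le_div_iff₀ (by positivity)] at this
      linarith
    have h2 : w'.im < th d j + 2 * Real.pi := by
      have := Int.lt_floor_add_one ((w.im - th d j) / (2 * Real.pi))
      rw [← hk, div_lt_iff₀ (by positivity)] at this
      linarith
    have hcusp : ∀ i : ℤ, w'.im ≠ th d i := by
      intro i hi
      have h1 : Complex.exp w' = Complex.exp ((th d i : ℝ) * I) * ((Real.exp w'.re : ℝ) : ℂ) := by
        rw [Complex.ofReal_exp, ← Complex.exp_add]
        congr 1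
        apply Complex.ext <;> simp [hi]
      apply cusp_escape hd (t := Real.exp w'.re) _ (exp_th_pow hd i)
      · rw [← h1, hw'z]; exact hS hz
      · rw [← norm_exp_eq, hw'z]; exact hzr
    rcases lt_or_ge w'.im (th d (j + 1)) with h | h
    · left
      exact ⟨w', ⟨lt_of_le_of_ne h1 (fun h => hcusp j h.symm), h⟩, hw'z⟩
    · right
      exact ⟨w', ⟨lt_of_le_of_ne h (fun h => hcusp (j + 1) h.symm), h2⟩, hw'z⟩
  obtain ⟨z, hz, hzz⟩ := hc _ _ (isOpen_sector _ _) (isOpen_sector _ _) hcov ⟨x, hx, hxs⟩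
    ⟨y, hy, (hcov y hy).resolve_left hys⟩
  rw [sector_disj le_rfl] at hzz
  exact hzz

/-- the depth of the cusps -/
theorem depth {d : ℕ} (hd : 2 ≤ d) : Real.log d / ((d:ℝ) - 1) ≤ 1 - rr d := by
  have hdr : (2:ℝ) ≤ d := by exact_mod_cast hd
  have h0 : 0 < (d:ℝ) - 1 := by linarith
  have hlog : 0 < Real.log d := Real.log_pos (by linarith)
  set L := Real.log d / ((d:ℝ) - 1) with hL
  have hLpos : 0 < L := div_pos hlog h0
  -- `L ≤ 1 / √d`
  have hs := Real.self_le_sinh_iff.mpr (show 0 ≤ Real.log d / 2 by positivity)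
  rw [Real.sinh_eq] at hs
  set E := Real.exp (Real.log d / 2) with hE
  have hE2 : E ^ 2 = d := by
    rw [hE, ← Real.exp_nat_mul]
    have : ((2:ℕ):ℝ) * (Real.log d / 2) = Real.log d := by push_cast; ring
    rw [this, Real.exp_log (by linarith)]
  have hEpos : 0 < E := Real.exp_pos _
  have hEn : Real.exp (-(Real.log d / 2)) = 1 / E := by
    rw [Real.exp_neg, one_div]
  rw [hEn] at hs
  have hLE : L ≤ 1 / E := by
    rw [hL, div_le_iff₀ h0]
    have : 1 / E * ((d:ℝ) - 1) = E - 1 / E := by rw [← hE2]; field_simp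
    rw [this]; linarith
  have hL2 : L ^ 2 ≤ 1 / d := by
    have h : L ^ 2 ≤ (1 / E) ^ 2 := pow_le_pow_left₀ hLpos.le hLE 2
    have h' : (1 / E) ^ 2 = 1 / (d:ℝ) := by rw [← hE2]; field_simp
    rw [← h']; exact h
  -- `exp (-L) ≤ 1 - L + L ^ 2 / 2`
  have hq := Real.quadratic_le_exp_of_nonneg hLpos.le
  have hex : Real.exp (-L) ≤ 1 - L + L ^ 2 / 2 := by
    rw [Real.exp_neg]
    rw [inv_le_comm₀ (Real.exp_pos _) (by nlinarith [sq_nonneg (1 - L)])]
    refine le_trans ?_ hq
    rw [inv_le_iff_one_le_mul₀ (by nlinarith [sq_nonneg (1 - L)])]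
    nlinarith [sq_nonneg (L ^ 2)]
  have hrr : rr d = Real.exp (-L) * (1 - 1 / d) := rr_eq hd
  have hd1 : 0 ≤ 1 - 1 / (d:ℝ) := by
    have : 1 / (d:ℝ) ≤ 1 / 2 := one_div_le_one_div_of_le (by norm_num) hdr
    linarith
  have h1 : rr d ≤ (1 - L + L ^ 2 / 2) * (1 - 1 / d) := by
    rw [hrr]; exact mul_le_mul_of_nonneg_right hex hd1
  have h2 : (1 - L + L ^ 2 / 2) * (1 - 1 / d) ≤ 1 - L := by
    have h3 : 1 / 2 ≤ 1 - L + L ^ 2 / 2 := by nlinarith [sq_nonneg (1 - L)]
    have h4 : 0 < 1 / (d:ℝ) := by positivity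
    have h5 : L ^ 2 / 2 ≤ (1 / d) * (1 - L + L ^ 2 / 2) := by
      calc L ^ 2 / 2 ≤ (1 / d) * (1 / 2) := by linarith
        _ ≤ _ := mul_le_mul_of_nonneg_left h3 h4.le
    nlinarith
  linarith

/-- parameters with periodic critical orbit belong to the Multibrot set -/
theorem mem_of_period {d q : ℕ} (hq : 1 ≤ q) {c : ℂ} (h : P d q c = 0) :
    c ∈ multibrotSet d := by
  intro ht
  have h1 : ∀ k : ℕ, (fun z : ℂ => z ^ d + c)^[q * k] 0 = 0 := by
    intro k
    induction k with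
    | zero => simp
    | succ k ih =>
      rw [Nat.mul_succ, Function.iterate_add_apply]
      have : (fun z : ℂ => z ^ d + c)^[q] 0 = 0 := h
      rw [this, ih]
  rw [← tendsto_norm_atTop_iff_cobounded] at ht
  obtain ⟨N, hN⟩ := eventually_atTop.mp (ht.eventually (eventually_gt_atTop 0))
  have := hN (q * N) (by nlinarith)
  rw [h1 N] at this
  simp at this

theorem th_eq {d : ℕ} (j : ℤ) : th d j = 2 * Real.pi * j / ((d:ℝ) - 1) := rfl

/-- A connected part of the Multibrot set containing points of two different sectors is large. -/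
theorem diam_ge {d : ℕ} (hd : 2 ≤ d) (j : ℤ) {S : Set ℂ} (hS : S ⊆ multibrotSet d)
    (hc : IsPreconnected S) {x y : ℂ} (hx : x ∈ S) (hy : y ∈ S)
    (hxs : x ∈ sector (th d j) (th d (j + 1))) (hys : y ∉ sector (th d j) (th d (j + 1))) :
    max ‖x‖ ‖y‖ - rr d ≤ Metric.diam S := by
  obtain ⟨p, hp, hpr⟩ := sep hd j hS hc hx hy hxs hys
  have hb : Bornology.IsBounded S := (isCompact_multibrot hd).isBounded.subset hS
  have h1 := Metric.dist_le_diam_of_mem hb hx hp
  have h2 := Metric.dist_le_diam_of_mem hb hy hp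
  rw [dist_eq_norm] at h1 h2
  have h3 := norm_sub_norm_le x p
  have h4 := norm_sub_norm_le y p
  rcases max_cases ‖x‖ ‖y‖ with ⟨h, -⟩ | ⟨h, -⟩ <;> rw [h] <;> linarith

/-- adjacent superattracting parameters of period two -/
theorem period_two {d : ℕ} (hd : 3 ≤ d) {x : ℂ} (hx : x ^ (d - 1) = -1) :
    x ∈ multibrotSet d ∧ ‖x‖ = 1 ∧ dist x (x * Complex.exp ((2 * Real.pi / ((d:ℝ) - 1) : ℝ) * I)) ≤
      2 * Real.pi / ((d:ℝ) - 1) ∧
    ∃ j : ℤ, x ∈ sector (th d j) (th d (j + 1)) ∧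
      x * Complex.exp ((2 * Real.pi / ((d:ℝ) - 1) : ℝ) * I) ∉ sector (th d j) (th d (j + 1)) := by
  have hd2 : 2 ≤ d := by omega
  have hdr : (3:ℝ) ≤ d := by exact_mod_cast hd
  have h0 : 0 < (d:ℝ) - 1 := by linarith
  have hpi := Real.pi_pos
  have hn : ‖x‖ = 1 := by
    have : ‖x‖ ^ (d - 1) = 1 := by rw [← norm_pow, hx]; simp
    exact (pow_eq_one_iff_of_nonneg (norm_nonneg _) (by omega)).mp this
  have hx0 : x ≠ 0 := norm_pos_iff.mp (by rw [hn]; norm_num)
  have hM : x ∈ multibrotSet d := by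
    apply mem_of_period (q := 2) (by norm_num)
    rw [P_succ, P_one hd2]
    have : x ^ d = x ^ (d - 1) * x := by rw [← pow_succ]; congr 1; omega
    rw [this, hx]; ring
  have hdist : dist x (x * Complex.exp ((2 * Real.pi / ((d:ℝ) - 1) : ℝ) * I)) ≤
      2 * Real.pi / ((d:ℝ) - 1) := by
    rw [dist_comm, dist_eq_norm]
    have h1 : x * Complex.exp ((2 * Real.pi / ((d:ℝ) - 1) : ℝ) * I) - x =
      x * (Complex.exp (I * ((2 * Real.pi / ((d:ℝ) - 1) : ℝ) : ℂ)) - 1) := by
      rw [mul_comm I]; ring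
    rw [h1, norm_mul, hn, one_mul]
    have := Real.norm_exp_I_mul_ofReal_sub_one_le (x := 2 * Real.pi / ((d:ℝ) - 1))
    rwa [Real.norm_eq_abs, abs_of_pos (by positivity)] at this
  refine ⟨hM, hn, hdist, ?_⟩
  set w := Complex.log x with hw
  have hwx : Complex.exp w = x := Complex.exp_log hx0
  set j : ℤ := ⌊w.im * ((d:ℝ) - 1) / (2 * Real.pi)⌋ with hj
  have hj1 : th d j ≤ w.im := by
    have := Int.floor_le (w.im * ((d:ℝ) - 1) / (2 * Real.pi))
    rw [← hj, le_div_iff₀ (by positivity)] at this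
    rw [th_eq, div_le_iff₀ h0]
    linarith
  have hj2 : w.im < th d (j + 1) := by
    have := (Int.lt_floor_add_one (w.im * ((d:ℝ) - 1) / (2 * Real.pi)))
    rw [← hj, div_lt_iff₀ (by positivity)] at this
    rw [th_eq, lt_div_iff₀ h0]
    push_cast
    linarith
  have hj3 : th d j ≠ w.im := by
    intro h
    have h1 : x = Complex.exp ((th d j : ℝ) * I) := by
      rw [← hwx]
      congr 1
      apply Complex.ext
      · simp only [Complex.mul_re, Complex.ofReal_re, Complex.I_re, Complex.ofReal_im, Complex.I_im]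
        rw [hw, Complex.log_re, hn, Real.log_one]; ring
      · simp [h]
    rw [h1, exp_th_pow hd2] at hx
    norm_num at hx
  refine ⟨j, ⟨w, ⟨lt_of_le_of_ne hj1 hj3, hj2⟩, hwx⟩, ?_⟩
  rintro ⟨w', ⟨h1, h2⟩, he⟩
  rw [← hwx, ← Complex.exp_add, Complex.exp_eq_exp_iff_exists_int] at he
  obtain ⟨k, hk⟩ := he
  have hi : w'.im = w.im + 2 * Real.pi / ((d:ℝ) - 1) + k * (2 * Real.pi) := by
    rw [hk]
    simp only [Complex.add_im, Complex.mul_im, Complex.ofReal_re, Complex.ofReal_im, Complex.I_re,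
      Complex.I_im, Complex.intCast_re, Complex.intCast_im, Complex.mul_re, Complex.re_ofNat,
      Complex.im_ofNat]
    ring
  have hsub := th_sub hd2 j
  have hlt : th d j < w.im := lt_of_le_of_ne hj1 hj3
  have hk1 : (k:ℝ) * (2 * Real.pi) < 0 := by linarith
  have hk2 : -(2 * (2 * Real.pi / ((d:ℝ) - 1))) < (k:ℝ) * (2 * Real.pi) := by linarith
  have hk3 : 2 * Real.pi / ((d:ℝ) - 1) ≤ Real.pi := by
    rw [div_le_iff₀ h0]; nlinarith
  have hk4 : (-1:ℝ) * (2 * Real.pi) < (k:ℝ) * (2 * Real.pi) := by linarith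
  have hk5 : (-1:ℝ) < k := lt_of_mul_lt_mul_right hk4 (by positivity)
  have hk6 : (k:ℝ) < 0 := by
    by_contra hh
    push Not at hh
    nlinarith
  have h6 : k < 0 := by exact_mod_cast hk6
  have h7 : -1 < k := by exact_mod_cast hk5
  omega

end Pool.Agent.N228.LC
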