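import Mathlib
import Pool.Prelude.Def_F_c31e40fa
import Pool.Agent.N228.LC.Sep

set_option autoImplicit false

open Complex Set Topology Filter Bornology N62a1eb23 Pool.Agent.H712R2

namespace Pool.Agent.N228.LC

/-- a solution of `τ (1 + τ / n) ^ n = - n` far to the right and close to the real axis -/
theorem exists_root {n : ℕ} (h16 : 16 ≤ Real.log n) (h2 : (Real.log n + 4) ^ 2 ≤ n / 10)
    (h3 : Real.log (Real.log n + 4) + 1 / 10 ≤ Real.log n / 2) :
    ∃ τ : ℂ, Real.log n / 2 ≤ τ.re ∧ τ.re ≤ Real.log n ∧ 0 < τ.im ∧ τ.im ≤ 4 ∧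
      Complex.log τ + n * Complex.log (1 + τ / n) = Real.log n + Real.pi * I := by
  set ℓ := Real.log n with hℓ
  have hn0 : (0:ℝ) < n := by nlinarith
  have hnC : (n:ℂ) ≠ 0 := by
    intro h
    have : (n:ℝ) = 0 := by exact_mod_cast h
    linarith
  have hℓn : (ℓ + 4) / n ≤ 1 / 16 := by
    rw [div_le_iff₀ hn0]
    nlinarith
  set K : Set ℂ := Icc (ℓ / 2) ℓ ×ℂ Icc 0 4 with hK
  have hKconv : Convex ℝ K := by
    exact ((convex_Icc (ℓ / 2) ℓ).linear_preimage Complex.reLm).inter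
      ((convex_Icc (0:ℝ) 4).linear_preimage Complex.imLm)
  have hKclosed : IsClosed K := isClosed_Icc.reProdIm isClosed_Icc
  set G : ℂ → ℂ := fun τ => n * Complex.log (1 + τ / n) - τ with hG
  set F : ℂ → ℂ := fun τ => (ℓ + Real.pi * I) - Complex.log τ - G τ with hF
  have hKn : ∀ τ ∈ K, ‖τ‖ ≤ ℓ + 4 ∧ ℓ / 2 ≤ ‖τ‖ ∧ 0 < τ.re := by
    intro τ hτ
    have h1 : ℓ / 2 ≤ τ.re := hτ.1.1
    have h2 : τ.re ≤ ℓ := hτ.1.2
    have h3 : 0 ≤ τ.im := hτ.2.1
    have h4 : τ.im ≤ 4 := hτ.2.2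
    refine ⟨?_, ?_, by linarith⟩
    · refine (Complex.norm_le_abs_re_add_abs_im τ).trans ?_
      rw [abs_of_nonneg (by linarith), abs_of_nonneg h3]
      linarith
    · refine h1.trans ((le_abs_self _).trans (Complex.abs_re_le_norm τ))
  have hz : ∀ τ ∈ K, ‖τ / (n:ℂ)‖ ≤ 1 / 16 := by
    intro τ hτ
    rw [norm_div, Complex.norm_natCast]
    exact (div_le_div_of_nonneg_right (hKn τ hτ).1 hn0.le).trans hℓn
  have hGb : ∀ τ ∈ K, ‖G τ‖ ≤ 1 / 10 := by
    intro τ hτ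
    have h1 := hz τ hτ
    have h4 := Complex.norm_log_one_add_sub_self_le (z := τ / n) (by linarith)
    have h5 : (1 - ‖τ / (n:ℂ)‖)⁻¹ ≤ 2 := by
      rw [inv_le_comm₀ (by linarith) (by norm_num)]
      linarith
    have h6 : ‖Complex.log (1 + τ / n) - τ / n‖ ≤ ‖τ / (n:ℂ)‖ ^ 2 := by
      refine h4.trans ?_
      nlinarith [sq_nonneg ‖τ / (n:ℂ)‖]
    have h7 : G τ = n * (Complex.log (1 + τ / n) - τ / n) := by
      rw [hG]; simp only; field_simp
    rw [h7, norm_mul, Complex.norm_natCast]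
    have h8 : ‖τ / (n:ℂ)‖ ^ 2 ≤ (ℓ + 4) ^ 2 / n ^ 2 := by
      rw [norm_div, Complex.norm_natCast, div_pow]
      apply div_le_div_of_nonneg_right _ (by positivity)
      exact pow_le_pow_left₀ (norm_nonneg _) (hKn τ hτ).1 2
    calc (n:ℝ) * ‖Complex.log (1 + τ / n) - τ / n‖ ≤ n * ((ℓ + 4) ^ 2 / n ^ 2) :=
          mul_le_mul_of_nonneg_left (h6.trans h8) hn0.le
      _ = (ℓ + 4) ^ 2 / n := by field_simp
      _ ≤ 1 / 10 := by
          rw [div_le_iff₀ hn0]; linarith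
  have hFim : ∀ τ ∈ K, 1 ≤ (F τ).im ∧ (F τ).im ≤ 4 := by
    intro τ hτ
    have h1 := hGb τ hτ
    have h4 := (Complex.abs_im_le_norm (G τ)).trans h1
    rw [abs_le] at h4
    have h5 : (F τ).im = Real.pi - τ.arg - (G τ).im := by
      rw [hF]; simp [Complex.log_im]
    have h6 : 0 ≤ τ.arg := Complex.arg_nonneg_iff.mpr hτ.2.1
    have h7 : |τ.arg| ≤ Real.pi / 2 := Complex.abs_arg_le_pi_div_two_iff.mpr (hKn τ hτ).2.2.le
    rw [abs_of_nonneg h6] at h7
    have h8 := Real.pi_gt_three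
    have h9 : Real.pi < 3.15 := Real.pi_lt_d2
    rw [h5]
    constructor <;> linarith [h4.1, h4.2]
  have hmaps : MapsTo F K K := by
    intro τ hτ
    have h1 := hGb τ hτ
    have h4 := (Complex.abs_re_le_norm (G τ)).trans h1
    rw [abs_le] at h4
    have h5 : (F τ).re = ℓ - Real.log ‖τ‖ - (G τ).re := by
      rw [hF]; simp [Complex.log_re]
    obtain ⟨h6, h7, -⟩ := hKn τ hτ
    have h8 : Real.log ‖τ‖ ≤ Real.log (ℓ + 4) := Real.log_le_log (by linarith) h6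
    have h9 : 1 ≤ Real.log ‖τ‖ := by
      rw [Real.le_log_iff_exp_le (by linarith)]
      have := Real.exp_one_lt_d9
      linarith
    obtain ⟨h10, h11⟩ := hFim τ hτ
    refine ⟨⟨?_, ?_⟩, ⟨by linarith, h11⟩⟩
    · rw [h5]; linarith [h4.1, h4.2]
    · rw [h5]; linarith [h4.1, h4.2]
  have hder : ∀ τ ∈ K, HasDerivWithinAt F (-(1 / τ) - (n * ((1 / n) / (1 + τ / n)) - 1)) K τ := by
    intro τ hτ
    have hre : 0 < τ.re := (hKn τ hτ).2.2
    have hslit : τ ∈ Complex.slitPlane := Or.inl hre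
    have hslit2 : 1 + τ / n ∈ Complex.slitPlane := by
      left
      have := (Complex.abs_re_le_norm (τ / (n:ℂ))).trans (hz τ hτ)
      rw [abs_le] at this
      rw [Complex.add_re, Complex.one_re]
      linarith [this.1]
    have d1 : HasDerivAt (fun τ : ℂ => Complex.log τ) (1 / τ) τ := by
      simpa using (hasDerivAt_id τ).clog hslit
    have d2 : HasDerivAt (fun τ : ℂ => 1 + τ / (n:ℂ)) (1 / n) τ := by
      simpa using ((hasDerivAt_id τ).div_const (n:ℂ)).const_add 1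
    have d3 : HasDerivAt G (n * ((1 / n) / (1 + τ / n)) - 1) τ :=
      ((d2.clog hslit2).const_mul (n:ℂ)).sub (hasDerivAt_id τ)
    have d4 : HasDerivAt F (0 - 1 / τ - (n * ((1 / n) / (1 + τ / n)) - 1)) τ :=
      ((hasDerivAt_const τ (ℓ + Real.pi * I : ℂ)).sub d1).sub d3
    have : (0 - 1 / τ - (n * ((1 / n) / (1 + τ / n)) - 1)) =
      (-(1 / τ) - (n * ((1 / n) / (1 + τ / n)) - 1)) := by ring
    rw [this] at d4
    exact d4.hasDerivWithinAt
  have hbd : ∀ τ ∈ K, ‖(-(1 / τ) - ((n:ℂ) * ((1 / n) / (1 + τ / n)) - 1))‖₊ ≤ (1 / 2 : NNReal) := by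
    intro τ hτ
    rw [← NNReal.coe_le_coe, coe_nnnorm]
    have h1 := hz τ hτ
    obtain ⟨-, h7, -⟩ := hKn τ hτ
    have h8 : ‖(1:ℂ) / τ‖ ≤ 1 / 8 := by
      rw [norm_div, norm_one]
      exact one_div_le_one_div_of_le (by norm_num) (by linarith)
    have hne : 1 + τ / (n:ℂ) ≠ 0 := by
      intro h
      have : τ / (n:ℂ) = -1 := by linear_combination h
      rw [this] at h1
      norm_num at h1
    have hge : 15 / 16 ≤ ‖1 + τ / (n:ℂ)‖ := by
      have := norm_sub_norm_le (1:ℂ) (-(τ / (n:ℂ)))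
      rw [sub_neg_eq_add, norm_neg, norm_one] at this
      linarith
    have h9 : (n:ℂ) * ((1 / n) / (1 + τ / n)) - 1 = -(τ / n / (1 + τ / n)) := by
      have : (n:ℂ) * ((1 / n) / (1 + τ / n)) = 1 / (1 + τ / n) := by
        field_simp
      rw [this, eq_neg_iff_add_eq_zero, sub_add_eq_add_sub, ← add_div, div_self hne, sub_self]
    have h10 : ‖(n:ℂ) * ((1 / n) / (1 + τ / n)) - 1‖ ≤ 1 / 15 := by
      rw [h9, norm_neg, norm_div, div_le_iff₀ (by linarith)]
      linarith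
    have h11 := norm_sub_le (-(1 / τ)) ((n:ℂ) * ((1 / n) / (1 + τ / n)) - 1)
    rw [norm_neg] at h11
    push_cast
    linarith
  have hlip : LipschitzOnWith (1 / 2 : NNReal) F K :=
    Convex.lipschitzOnWith_of_nnnorm_hasDerivWithin_le hKconv hder hbd
  have hcontr : ContractingWith (1 / 2 : NNReal) (hmaps.restrict F K K) := by
    refine ⟨?_, hlip.mapsToRestrict hmaps⟩
    rw [← NNReal.coe_lt_coe]; push_cast; norm_num
  have hmem : ((ℓ : ℝ) : ℂ) ∈ K := by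
    refine ⟨⟨?_, ?_⟩, ⟨?_, ?_⟩⟩ <;> (simp; try linarith)
  obtain ⟨τ, hτK, hτ, -⟩ := ContractingWith.exists_fixedPoint' hKclosed.isComplete hmaps hcontr hmem
    (edist_ne_top _ _)
  have hfix : F τ = τ := hτ
  refine ⟨τ, hτK.1.1, hτK.1.2, ?_, hτK.2.2, ?_⟩
  · have := (hFim τ hτK).1
    rw [hfix] at this
    linarith
  · have h1 : (ℓ + Real.pi * I : ℂ) - Complex.log τ - (n * Complex.log (1 + τ / n) - τ) = τ := hfix
    linear_combination -h1

theorem P_conj (d k : ℕ) (c : ℂ) :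
    P d k ((starRingEnd ℂ) c) = (starRingEnd ℂ) (P d k c) := by
  induction k with
  | zero => simp [P_zero]
  | succ k ih => rw [P_succ, P_succ, ih, map_add, map_pow]

/-- superattracting parameters of period three near the cusp direction -/
theorem third {n : ℕ} (hn : 3 ≤ n) (h16 : 16 ≤ Real.log n) :
    ∃ x : ℂ, P n 3 x = 0 ∧ P n 3 ((starRingEnd ℂ) x) = 0 ∧ x ≠ 0 ∧
      dist x ((starRingEnd ℂ) x) ≤ 26 / (((n:ℝ) - 1) * Real.log n) ∧
      x ∈ sector (th n 0) (th n (0 + 1)) ∧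
      (starRingEnd ℂ) x ∉ sector (th n 0) (th n (0 + 1)) ∧
      (Real.log (Real.log n) - 1) / ((n:ℝ) - 1) ≤ ‖x‖ - rr n := by
  set ℓ := Real.log n with hℓ
  have hnr : (3:ℝ) ≤ n := by exact_mod_cast hn
  have hm0 : 0 < (n:ℝ) - 1 := by linarith
  have hn0 : (0:ℝ) < n := by linarith
  have hnexp : Real.exp ℓ = n := Real.exp_log hn0
  have h2 : (ℓ + 4) ^ 2 ≤ (n:ℝ) / 10 := by
    have h := Real.pow_div_factorial_le_exp ℓ (by linarith) 5
    rw [hnexp] at h
    have h5 : ((Nat.factorial 5 : ℕ) : ℝ) = 120 := by norm_num [Nat.factorial]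
    rw [h5] at h
    have h6 : (4096:ℝ) ≤ ℓ ^ 3 := by
      have : (16:ℝ) ^ 3 ≤ ℓ ^ 3 := pow_le_pow_left₀ (by norm_num) h16 3
      linarith
    have h7 : ℓ ^ 5 = ℓ ^ 2 * ℓ ^ 3 := by ring
    have h8 : 4096 * ℓ ^ 2 ≤ ℓ ^ 5 := by
      rw [h7]; nlinarith [sq_nonneg ℓ]
    have h9 : (ℓ + 4) ^ 2 ≤ (5 / 4 * ℓ) ^ 2 := pow_le_pow_left₀ (by linarith) (by linarith) 2
    nlinarith [sq_nonneg ℓ]
  have h3 : Real.log (ℓ + 4) + 1 / 10 ≤ ℓ / 2 := by
    have h := Real.log_le_sub_one_of_pos (show 0 < (ℓ + 4) / 4 by linarith)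
    rw [Real.log_div (by linarith) (by norm_num)] at h
    have h4 : Real.log 4 = 2 * Real.log 2 := by
      have : (4:ℝ) = 2 ^ 2 := by norm_num
      rw [this, Real.log_pow]; norm_num
    have h5 := Real.log_two_lt_d9
    linarith
  obtain ⟨τ, hre1, hre2, him1, him2, hτ⟩ := exists_root h16 h2 h3
  have hτ0 : τ ≠ 0 := by
    rintro rfl
    simp at him1
  have hnC : (n:ℂ) ≠ 0 := by exact_mod_cast hn0.ne'
  have hmC : (n:ℂ) - 1 ≠ 0 := by
    intro h
    have : ((n:ℝ) - 1 : ℝ) = 0 := by exact_mod_cast h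
    linarith
  have hτn1 : ℓ / 2 ≤ ‖τ‖ := hre1.trans ((le_abs_self _).trans (Complex.abs_re_le_norm τ))
  have hτn2 : ‖τ‖ ≤ ℓ + 4 := by
    refine (Complex.norm_le_abs_re_add_abs_im τ).trans ?_
    rw [abs_of_nonneg (by linarith), abs_of_nonneg him1.le]
    linarith
  have hz : ‖τ / (n:ℂ)‖ < 1 := by
    rw [norm_div, Complex.norm_natCast, div_lt_one hn0]
    nlinarith
  have hne : 1 + τ / (n:ℂ) ≠ 0 := by
    intro h
    have : τ / (n:ℂ) = -1 := by linear_combination h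
    rw [this] at hz
    norm_num at hz
  -- the equation
  have hroot : τ * (1 + τ / n) ^ n = -n := by
    have h := congrArg Complex.exp hτ
    rw [Complex.exp_add, Complex.exp_add, Complex.exp_log hτ0, Complex.exp_nat_mul,
      Complex.exp_log hne, Complex.exp_pi_mul_I, ← Complex.ofReal_exp, hnexp] at h
    rw [h]; push_cast; ring
  set u : ℂ := τ / n with hu
  have hu0 : u ≠ 0 := div_ne_zero hτ0 hnC
  have hroot2 : u * (1 + u) ^ n = -1 := by
    have : u * (1 + u) ^ n = (τ * (1 + τ / n) ^ n) / n := by rw [hu]; ring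
    rw [this, hroot, neg_div, div_self hnC]
  set x : ℂ := Complex.exp ((Complex.log τ - ℓ) / ((n:ℂ) - 1)) with hx
  have hcast : ((n - 1 : ℕ) : ℂ) = (n:ℂ) - 1 := by
    rw [Nat.cast_sub (by omega)]; simp
  have hxm : x ^ (n - 1) = u := by
    rw [hx, ← Complex.exp_nat_mul, hcast, mul_div_cancel₀ _ hmC, Complex.exp_sub,
      Complex.exp_log hτ0, ← Complex.ofReal_exp, hnexp]
    rw [hu]; push_cast; rfl
  have hxn : x ^ n = x * u := by
    have : x ^ n = x * x ^ (n - 1) := by rw [← pow_succ']; congr 1; omega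
    rw [this, hxm]
  have hx0 : x ≠ 0 := Complex.exp_ne_zero _
  have hP3 : P n 3 x = 0 := by
    rw [P_succ, P_succ, P_one (by omega), hxn]
    have : (x * u + x) ^ n + x = x * (u * (1 + u) ^ n + 1) := by
      have : x * u + x = x * (1 + u) := by ring
      rw [this, mul_pow, hxn]; ring
    rw [this, hroot2]; ring
  have hexp_re : ((Complex.log τ - ℓ) / ((n:ℂ) - 1)).re = (Real.log ‖τ‖ - ℓ) / ((n:ℝ) - 1) := by
    have : (Complex.log τ - ℓ) / ((n:ℂ) - 1) = (Complex.log τ - ℓ) / (((n:ℝ) - 1 : ℝ) : ℂ) := by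
      push_cast; rfl
    rw [this, Complex.div_ofReal_re, Complex.sub_re, Complex.log_re, Complex.ofReal_re]
  have hexp_im : ((Complex.log τ - ℓ) / ((n:ℂ) - 1)).im = τ.arg / ((n:ℝ) - 1) := by
    have : (Complex.log τ - ℓ) / ((n:ℂ) - 1) = (Complex.log τ - ℓ) / (((n:ℝ) - 1 : ℝ) : ℂ) := by
      push_cast; rfl
    rw [this, Complex.div_ofReal_im, Complex.sub_im, Complex.log_im, Complex.ofReal_im, sub_zero]
  have hxnorm : ‖x‖ = Real.exp ((Real.log ‖τ‖ - ℓ) / ((n:ℝ) - 1)) := by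
    rw [hx, Complex.norm_exp, hexp_re]
  have harg0 : 0 < τ.arg := by
    rcases (Complex.arg_nonneg_iff.mpr him1.le).lt_or_eq with h | h
    · exact h
    · exfalso
      have := (Complex.arg_eq_zero_iff.mp h.symm).2
      linarith
  have hargpi : τ.arg ≤ Real.pi / 2 := by
    have := Complex.abs_arg_le_pi_div_two_iff.mpr (show 0 ≤ τ.re by linarith)
    exact (le_abs_self _).trans this
  have hpi := Real.pi_pos
  have hargb : τ.arg ≤ 13 / ℓ := by
    have h := Real.mul_le_sin harg0.le hargpi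
    rw [Complex.sin_arg] at h
    have h5 : τ.im / ‖τ‖ ≤ 4 / (ℓ / 2) :=
      div_le_div₀ (by norm_num) him2 (by linarith) hτn1
    have h6 : τ.arg ≤ Real.pi / 2 * (4 / (ℓ / 2)) := by
      have h7 : τ.arg = Real.pi / 2 * (2 / Real.pi * τ.arg) := by field_simp
      rw [h7]
      exact mul_le_mul_of_nonneg_left (h.trans h5) (by positivity)
    refine h6.trans ?_
    have h8 : Real.pi / 2 * (4 / (ℓ / 2)) = (4 * Real.pi) / ℓ := by field_simp
    rw [h8]
    apply div_le_div_of_nonneg_right _ (by linarith)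
    have : Real.pi < 3.15 := Real.pi_lt_d2
    linarith
  have hth0 : th n 0 = 0 := by unfold th; simp
  have hth1 : th n (0 + 1) = 2 * Real.pi / ((n:ℝ) - 1) := by unfold th; simp
  have hxle : ‖x‖ ≤ 1 := by
    rw [hxnorm, Real.exp_le_one_iff]
    apply div_nonpos_of_nonpos_of_nonneg _ hm0.le
    have : Real.log ‖τ‖ ≤ Real.log (ℓ + 4) := Real.log_le_log (by linarith) hτn2
    linarith
  refine ⟨x, hP3, ?_, hx0, ?_, ?_, ?_, ?_⟩
  · rw [P_conj, hP3, map_zero]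
  · rw [dist_eq_norm]
    have h1 : x - (starRingEnd ℂ) x = ((2 * x.im : ℝ) : ℂ) * I := by
      apply Complex.ext <;> simp
      ring
    rw [h1, norm_mul, Complex.norm_I, mul_one, Complex.norm_real, Real.norm_eq_abs, abs_mul]
    have h2 : |x.im| ≤ τ.arg / ((n:ℝ) - 1) := by
      have : x.im = ‖x‖ * Real.sin (τ.arg / ((n:ℝ) - 1)) := by
        rw [hx, Complex.exp_im, Complex.norm_exp, hexp_im]
      rw [this, abs_mul, abs_norm]
      have h4 : |Real.sin (τ.arg / ((n:ℝ) - 1))| ≤ |τ.arg / ((n:ℝ) - 1)| := Real.abs_sin_le_abs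
      rw [abs_of_nonneg (show 0 ≤ τ.arg / ((n:ℝ) - 1) by positivity)] at h4
      calc ‖x‖ * |Real.sin (τ.arg / ((n:ℝ) - 1))| ≤ 1 * (τ.arg / ((n:ℝ) - 1)) :=
            mul_le_mul hxle h4 (abs_nonneg _) zero_le_one
        _ = _ := one_mul _
    have h5 : τ.arg / ((n:ℝ) - 1) ≤ 13 / ℓ / ((n:ℝ) - 1) :=
      div_le_div_of_nonneg_right hargb hm0.le
    have h6 : 26 / (((n:ℝ) - 1) * ℓ) = 2 * (13 / ℓ / ((n:ℝ) - 1)) := by field_simp; ring
    rw [h6, abs_of_pos (by norm_num : (0:ℝ) < 2)]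
    linarith
  · refine ⟨_, ⟨?_, ?_⟩, rfl⟩
    · rw [hexp_im, hth0]; positivity
    · rw [hexp_im, hth1]
      apply div_lt_div_of_pos_right _ hm0
      linarith
  · intro hmem
    have h1 : (starRingEnd ℂ) x ∈ sector (-(2 * Real.pi / ((n:ℝ) - 1))) 0 := by
      refine ⟨(starRingEnd ℂ) ((Complex.log τ - ℓ) / ((n:ℂ) - 1)), ⟨?_, ?_⟩, ?_⟩
      · rw [Complex.conj_im, hexp_im]
        have : τ.arg / ((n:ℝ) - 1) < 2 * Real.pi / ((n:ℝ) - 1) := by
          apply div_lt_div_of_pos_right _ hm0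
          linarith
        linarith
      · rw [Complex.conj_im, hexp_im]
        have : 0 < τ.arg / ((n:ℝ) - 1) := by positivity
        linarith
      · rw [hx, Complex.exp_conj]
    rw [hth0, hth1] at hmem
    have h2 := sector_disj (a := -(2 * Real.pi / ((n:ℝ) - 1))) (b := 0)
      (c := 2 * Real.pi / ((n:ℝ) - 1)) (by
        have : 2 * Real.pi / ((n:ℝ) - 1) ≤ Real.pi := by
          rw [div_le_iff₀ hm0]; nlinarith
        linarith)
    have h3 : (starRingEnd ℂ) x ∈ sector (-(2 * Real.pi / ((n:ℝ) - 1))) 0 ∩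
      sector 0 (2 * Real.pi / ((n:ℝ) - 1)) := ⟨h1, hmem⟩
    rw [h2] at h3
    exact h3
  · have h1 : rr n ≤ Real.exp (-(ℓ / ((n:ℝ) - 1))) := by
      have : rr n = Real.exp (-(ℓ / ((n:ℝ) - 1))) * (1 - 1 / n) := rr_eq (by omega)
      rw [this]
      have h4 : 0 < 1 / (n:ℝ) := by positivity
      nlinarith [Real.exp_pos (-(ℓ / ((n:ℝ) - 1)))]
    have h4 : ‖x‖ = Real.exp (-(ℓ / ((n:ℝ) - 1))) * Real.exp (Real.log ‖τ‖ / ((n:ℝ) - 1)) := by
      rw [hxnorm, ← Real.exp_add]; congr 1; ring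
    have h5 := Real.add_one_le_exp (Real.log ‖τ‖ / ((n:ℝ) - 1))
    have h6 : Real.log ℓ - Real.log 2 ≤ Real.log ‖τ‖ := by
      rw [← Real.log_div (by linarith) (by norm_num)]
      exact Real.log_le_log (by linarith) hτn1
    have h7 := Real.log_two_lt_d9
    have h7' := Real.log_two_gt_d9
    have h8 : 1 - ℓ / ((n:ℝ) - 1) ≤ Real.exp (-(ℓ / ((n:ℝ) - 1))) := by
      have := Real.add_one_le_exp (-(ℓ / ((n:ℝ) - 1))); linarith
    have h9 : Real.log ℓ ≤ ℓ := (Real.log_le_sub_one_of_pos (by linarith)).trans (by linarith)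
    have h10 : 1 ≤ Real.log ℓ := by
      rw [Real.le_log_iff_exp_le (by linarith)]
      have := Real.exp_one_lt_d9
      linarith
    set q : ℝ := ℓ / ((n:ℝ) - 1) with hq
    have hqn : q * Real.log ℓ ≤ 0.3 := by
      rw [hq, div_mul_eq_mul_div, div_le_iff₀ hm0]
      nlinarith
    have hq0 : 0 ≤ q := by positivity
    have hq1 : q ≤ 1 := by nlinarith
    have h11 : (Real.log ℓ - 1) ≤ (1 - q) * Real.log ‖τ‖ := by
      have h12 : (1 - q) * (Real.log ℓ - Real.log 2) ≤ (1 - q) * Real.log ‖τ‖ :=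
        mul_le_mul_of_nonneg_left h6 (by linarith)
      have h13 : (Real.log ℓ - 1) ≤ (1 - q) * (Real.log ℓ - Real.log 2) := by nlinarith
      linarith
    have h12 : (1 - q) * Real.log ‖τ‖ / ((n:ℝ) - 1) ≤ ‖x‖ - rr n := by
      have h13 : 0 ≤ Real.log ‖τ‖ / ((n:ℝ) - 1) := by
        apply div_nonneg _ hm0.le
        linarith
      have h14 : Real.exp (-q) * (Real.log ‖τ‖ / ((n:ℝ) - 1) + 1) ≤ ‖x‖ := by
        rw [h4]; exact mul_le_mul_of_nonneg_left h5 (Real.exp_pos _).le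
      have h15 : (1 - q) * (Real.log ‖τ‖ / ((n:ℝ) - 1)) ≤
          Real.exp (-q) * (Real.log ‖τ‖ / ((n:ℝ) - 1)) := mul_le_mul_of_nonneg_right h8 h13
      have h16 : (1 - q) * Real.log ‖τ‖ / ((n:ℝ) - 1) = (1 - q) * (Real.log ‖τ‖ / ((n:ℝ) - 1)) := by
        ring
      rw [h16]
      nlinarith
    exact (div_le_div_of_nonneg_right h11 hm0.le).trans h12

end Pool.Agent.N228.LC
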