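import Mathlib
import Pool.Prelude.Def_F_c31e40fa
import Pool.Agent.N228.LC.Sep

set_option autoImplicit false

open Complex Set Topology Filter Bornology N62a1eb23 Pool.Agent.H712R2

namespace Pool.Agent.N228.LC

/-- radial width of the Multibrot set outside its inner disc -/
noncomputable def wid (d : ℕ) : ℝ := (1 + 1 / ((d:ℝ) - 1)) - rr d

theorem quarter_le {d : ℕ} (hd : 2 ≤ d) : 1 / 4 ≤ rr d := by
  have hdr : (2:ℝ) ≤ d := by exact_mod_cast hd
  have h1 : 1 / 2 ≤ sr d := by
    by_contra hh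
    push Not at hh
    have h2 : sr d ^ (d - 1) < (1 / 2) ^ (d - 1) :=
      pow_lt_pow_left₀ hh (sr_pos d).le (by omega)
    rw [sr_pow hd] at h2
    have h3 : ((d:ℕ):ℝ) ≤ 2 ^ (d - 1) := by
      have : d - 1 < 2 ^ (d - 1) := Nat.lt_two_pow_self
      have : d ≤ 2 ^ (d - 1) := by omega
      exact_mod_cast this
    have h4 : (1 / 2 : ℝ) ^ (d - 1) ≤ 1 / d := by
      rw [div_pow, one_pow]
      exact one_div_le_one_div_of_le (by linarith) h3
    linarith
  have h5 : 1 / 2 ≤ 1 - 1 / (d:ℝ) := by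
    have : 1 / (d:ℝ) ≤ 1 / 2 := one_div_le_one_div_of_le (by norm_num) hdr
    linarith
  rw [rr_eq hd]
  nlinarith

theorem rr_le_one {d : ℕ} (hd : 2 ≤ d) : rr d ≤ 1 := by
  have h1 : rr d ≤ sr d := by
    unfold rr
    have := pow_nonneg (sr_pos d).le d
    linarith
  linarith [sr_lt_one hd]

theorem wid_nonneg {d : ℕ} (hd : 2 ≤ d) : 0 ≤ wid d := by
  have hdr : (2:ℝ) ≤ d := by exact_mod_cast hd
  have h0 : 0 < (d:ℝ) - 1 := by linarith
  have : 0 < 1 / ((d:ℝ) - 1) := by positivity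
  unfold wid
  linarith [rr_le_one hd]

/-- radial retraction onto the inner disc is nonexpansive: both points outside -/
theorem retr_out {r a b : ℝ} {e e' : ℂ} (hr : 0 ≤ r) (ha : r ≤ a) (hb : r ≤ b) (he : ‖e‖ = 1)
    (he' : ‖e'‖ = 1) : ‖(r:ℂ) * e - r * e'‖ ≤ ‖(a:ℂ) * e - b * e'‖ := by
  have h1 : e.re * e.re + e.im * e.im = 1 := by
    rw [← Complex.normSq_apply, Complex.normSq_eq_norm_sq, he]; norm_num
  have h2 : e'.re * e'.re + e'.im * e'.im = 1 := by
    rw [← Complex.normSq_apply, Complex.normSq_eq_norm_sq, he']; norm_num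
  apply (pow_le_pow_iff_left₀ (norm_nonneg _) (norm_nonneg _) two_ne_zero).mp
  rw [← Complex.normSq_eq_norm_sq, ← Complex.normSq_eq_norm_sq, Complex.normSq_apply,
    Complex.normSq_apply]
  simp only [Complex.sub_re, Complex.sub_im, Complex.mul_re, Complex.mul_im, Complex.ofReal_re,
    Complex.ofReal_im, zero_mul, sub_zero, add_zero]
  set c : ℝ := e.re * e'.re + e.im * e'.im with hc
  have hc1 : c ≤ 1 := by nlinarith [sq_nonneg (e.re - e'.re), sq_nonneg (e.im - e'.im)]
  have e1 : (r * e.re - r * e'.re) * (r * e.re - r * e'.re) +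
      (r * e.im - r * e'.im) * (r * e.im - r * e'.im) = r * r * (2 - 2 * c) := by
    have : (r * e.re - r * e'.re) * (r * e.re - r * e'.re) +
      (r * e.im - r * e'.im) * (r * e.im - r * e'.im) =
      r * r * ((e.re * e.re + e.im * e.im) + (e'.re * e'.re + e'.im * e'.im) - 2 * c) := by
      rw [hc]; ring
    rw [this, h1, h2]; ring
  have e2 : (a * e.re - b * e'.re) * (a * e.re - b * e'.re) +
      (a * e.im - b * e'.im) * (a * e.im - b * e'.im) = a * a + b * b - 2 * (a * b) * c := by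
    have : (a * e.re - b * e'.re) * (a * e.re - b * e'.re) +
      (a * e.im - b * e'.im) * (a * e.im - b * e'.im) =
      a * a * (e.re * e.re + e.im * e.im) + b * b * (e'.re * e'.re + e'.im * e'.im)
        - 2 * (a * b) * c := by
      rw [hc]; ring
    rw [this, h1, h2]; ring
  rw [e1, e2]
  have h3 : 0 ≤ (a * b - r * r) * (1 - c) := by
    apply mul_nonneg _ (by linarith)
    nlinarith
  nlinarith [sq_nonneg (a - b)]

/-- radial retraction onto the inner disc is nonexpansive: one point inside -/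
theorem retr_in {r b : ℝ} {x e' : ℂ} (hb : r ≤ b) (hx : ‖x‖ ≤ r) (he' : ‖e'‖ = 1) :
    ‖x - r * e'‖ ≤ ‖x - b * e'‖ := by
  have h2 : e'.re * e'.re + e'.im * e'.im = 1 := by
    rw [← Complex.normSq_apply, Complex.normSq_eq_norm_sq, he']; norm_num
  have h1 : x.re * x.re + x.im * x.im ≤ r * r := by
    rw [← Complex.normSq_apply, Complex.normSq_eq_norm_sq]
    nlinarith [norm_nonneg x]
  have hr : 0 ≤ r := (norm_nonneg x).trans hx
  apply (pow_le_pow_iff_left₀ (norm_nonneg _) (norm_nonneg _) two_ne_zero).mp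
  rw [← Complex.normSq_eq_norm_sq, ← Complex.normSq_eq_norm_sq, Complex.normSq_apply,
    Complex.normSq_apply]
  simp only [Complex.sub_re, Complex.sub_im, Complex.mul_re, Complex.mul_im, Complex.ofReal_re,
    Complex.ofReal_im, zero_mul, sub_zero, add_zero]
  set c : ℝ := x.re * e'.re + x.im * e'.im with hc
  have hc1 : c ≤ r := by
    have h3 := Complex.abs_re_le_norm (x * (starRingEnd ℂ) e')
    rw [norm_mul, RCLike.norm_conj, he', mul_one] at h3
    have h4 : (x * (starRingEnd ℂ) e').re = c := by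
      rw [hc]; simp [Complex.mul_re]
    rw [h4] at h3
    linarith [le_abs_self c]
  have e1 : ∀ s : ℝ, (x.re - s * e'.re) * (x.re - s * e'.re) +
      (x.im - s * e'.im) * (x.im - s * e'.im) = x.re * x.re + x.im * x.im + s * s - 2 * s * c := by
    intro s
    have : (x.re - s * e'.re) * (x.re - s * e'.re) +
      (x.im - s * e'.im) * (x.im - s * e'.im) = x.re * x.re + x.im * x.im +
        s * s * (e'.re * e'.re + e'.im * e'.im) - 2 * s * c := by
      rw [hc]; ring
    rw [this, h2]; ring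
  rw [e1, e1]
  nlinarith [mul_nonneg (sub_nonneg.mpr hb) (sub_nonneg.mpr hc1)]

/-- every point of the Multibrot set lies in a small connected piece that reaches the inner disc -/
theorem piece {d : ℕ} (hd : 2 ≤ d) {x : ℂ} (hx : x ∈ multibrotSet d) :
    ∃ V : Set ℂ, ∃ x' e : ℂ, IsPreconnected V ∧ V ⊆ multibrotSet d ∧ x ∈ V ∧ x' ∈ V ∧
      ‖x'‖ ≤ rr d ∧ ‖e‖ = 1 ∧
      (∀ a ∈ V, ∃ s : ℝ, 0 ≤ s ∧ s ≤ wid d ∧ dist a (x' + s * e) ≤ 4 * Real.pi / ((d:ℝ) - 1) ∧
        (‖x‖ ≤ rr d → s = 0)) ∧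
      (‖x‖ ≤ rr d → x' = x) ∧ (rr d < ‖x‖ → x' = rr d * e ∧ x = ‖x‖ * e) := by
  have hdr : (2:ℝ) ≤ d := by exact_mod_cast hd
  have h0 : 0 < (d:ℝ) - 1 := by linarith
  have hpi := Real.pi_pos
  by_cases hxr : ‖x‖ ≤ rr d
  · refine ⟨{x}, x, 1, isPreconnected_singleton, by simpa using hx, rfl, rfl, hxr, by simp, ?_,
      fun _ => rfl, fun h => absurd hxr (not_le.mpr h)⟩
    rintro a rfl
    refine ⟨0, le_rfl, wid_nonneg hd, ?_, fun _ => rfl⟩
    simp only [Complex.ofReal_zero, zero_mul, add_zero, dist_self]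
    positivity
  · push Not at hxr
    have hrr := rr_pos hd
    have hxpos : 0 < ‖x‖ := lt_trans hrr hxr
    have hx0 : x ≠ 0 := norm_pos_iff.mp hxpos
    set z := Complex.log x with hz
    have hexpz : Complex.exp z = x := Complex.exp_log hx0
    have hzre : z.re = Real.log ‖x‖ := Complex.log_re x
    set j : ℤ := ⌊z.im * ((d:ℝ) - 1) / (2 * Real.pi)⌋ with hj
    have hj1 : th d j ≤ z.im := by
      have := Int.floor_le (z.im * ((d:ℝ) - 1) / (2 * Real.pi))
      rw [← hj, le_div_iff₀ (by positivity)] at this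
      unfold th
      rw [div_le_iff₀ h0]
      linarith
    have hj2 : z.im ≤ th d (j + 1) := by
      have := (Int.lt_floor_add_one (z.im * ((d:ℝ) - 1) / (2 * Real.pi))).le
      rw [← hj, div_le_iff₀ (by positivity)] at this
      unfold th
      rw [le_div_iff₀ h0]
      push_cast
      linarith
    have hrr2 : Real.log (rr d) ≤ Real.log 2 :=
      Real.log_le_log hrr (by linarith [rr_le_one hd])
    set e : ℂ := Complex.exp ((z.im : ℝ) * I) with he
    have hen : ‖e‖ = 1 := by rw [he, Complex.norm_exp_ofReal_mul_I]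
    have hxe : x = ‖x‖ * e := by
      rw [he]
      conv_lhs => rw [← hexpz]
      have : Complex.exp z = Complex.exp (z.re + z.im * I) := by rw [Complex.re_add_im]
      rw [this, Complex.exp_add, ← Complex.ofReal_exp, hzre, Real.exp_log hxpos]
    refine ⟨multibrotSet d ∩ Complex.exp '' (KK d j), rr d * e, e,
      conn_piece hd j, inter_subset_left, ⟨hx, z, ⟨⟨?_, ?_⟩, ⟨hj1, hj2⟩⟩, hexpz⟩, ⟨?_, ?_⟩, ?_,
      hen, ?_, fun h => absurd h (not_le.mpr hxr), fun _ => ⟨rfl, hxe⟩⟩
    · rw [hzre]; exact Real.log_le_log hrr hxr.le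
    · rw [hzre]; exact Real.log_le_log hxpos (norm_le_two hd hx)
    · apply disc_subset hd
      rw [norm_mul, hen, mul_one, Complex.norm_real, Real.norm_eq_abs, abs_of_pos hrr]
    · refine ⟨(⟨Real.log (rr d), z.im⟩ : ℂ), ⟨⟨le_rfl, hrr2⟩, ⟨hj1, hj2⟩⟩, ?_⟩
      have : (⟨Real.log (rr d), z.im⟩ : ℂ) = ((Real.log (rr d) : ℝ) : ℂ) + (z.im : ℝ) * I := by
        apply Complex.ext <;> simp
      rw [this, Complex.exp_add, ← Complex.ofReal_exp, Real.exp_log hrr]
    · rw [norm_mul, hen, mul_one, Complex.norm_real, Real.norm_eq_abs, abs_of_pos hrr]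
    · rintro _ ⟨haM, a, ha, rfl⟩
      have hRa := norm_le_outer hd haM
      rw [norm_exp_eq] at hRa
      have hra : rr d ≤ Real.exp a.re := by
        rw [← Real.exp_log hrr]; exact Real.exp_le_exp.mpr ha.1.1
      refine ⟨Real.exp a.re - rr d, by linarith, by unfold wid; linarith, ?_,
        fun h => absurd h (not_le.mpr hxr)⟩
      have e1 : (rr d * e + ((Real.exp a.re - rr d : ℝ) : ℂ) * e) =
          Complex.exp ((a.re : ℝ) + (z.im : ℝ) * I) := by
        rw [Complex.exp_add, ← Complex.ofReal_exp, ← he]; push_cast; ring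
      rw [e1]
      refine dist_exp_le.trans ?_
      simp only [Complex.add_re, Complex.ofReal_re, Complex.mul_re, Complex.I_re, mul_zero,
        Complex.ofReal_im, Complex.I_im, mul_one, sub_self, add_zero, Complex.add_im,
        Complex.mul_im, zero_add, abs_zero]
      have h2 : |a.im - z.im| ≤ 2 * Real.pi / ((d:ℝ) - 1) := by
        rw [← th_sub hd j, abs_le]
        have ha1 : th d j ≤ a.im := ha.2.1
        have ha2 : a.im ≤ th d (j + 1) := ha.2.2
        constructor <;> linarith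
      have h3 : Real.exp a.re ≤ 2 := by
        have := norm_le_two hd haM
        rwa [norm_exp_eq] at this
      have h4 : Real.exp a.re * |a.im - z.im| ≤ 2 * (2 * Real.pi / ((d:ℝ) - 1)) :=
        mul_le_mul h3 h2 (abs_nonneg _) (by norm_num)
      have h5 : 2 * (2 * Real.pi / ((d:ℝ) - 1)) = 4 * Real.pi / ((d:ℝ) - 1) := by ring
      linarith

/-- two radial segments outside the inner disc -/
theorem radial {r δ h s t : ℝ} {e e' : ℂ} (hr : 0 ≤ r) (he : ‖e‖ = 1) (he' : ‖e'‖ = 1)
    (h1 : ‖e - e'‖ ≤ 1) (h2 : r * ‖e - e'‖ ≤ δ) (hs0 : 0 ≤ s) (hs : s ≤ h) (ht0 : 0 ≤ t)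
    (ht : t ≤ h) : ‖(r * e + s * e) - (r * e' + t * e')‖ ≤ δ + h := by
  have key : ∀ (s t : ℝ) (e e' : ℂ), ‖e‖ = 1 → ‖e - e'‖ ≤ 1 → r * ‖e - e'‖ ≤ δ → 0 ≤ t → t ≤ s →
      s ≤ h → ‖(r * e + s * e) - (r * e' + t * e')‖ ≤ δ + h := by
    intro s t e e' he h1 h2 ht0 hts hsh
    have e1 : ((r:ℂ) * e + s * e) - (r * e' + t * e') =
        ((r + t : ℝ) : ℂ) * (e - e') + ((s - t : ℝ) : ℂ) * e := by push_cast; ring
    rw [e1]
    refine (norm_add_le _ _).trans ?_
    rw [norm_mul, norm_mul, he, Complex.norm_real, Complex.norm_real, Real.norm_eq_abs,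
      Real.norm_eq_abs, abs_of_nonneg (by linarith), abs_of_nonneg (by linarith)]
    nlinarith
  rcases le_total t s with hts | hst
  · exact key s t e e' he h1 h2 ht0 hts hs
  · rw [norm_sub_rev]
    rw [norm_sub_rev] at h1 h2
    exact key t s e' e he' h1 h2 hs0 hst ht

theorem wid_bound {d : ℕ} (hd : 2 ≤ d) :
    wid d + 2 * (4 * Real.pi / ((d:ℝ) - 1)) ≤ (Real.log d + 28) / ((d:ℝ) - 1) := by
  have hdr : (2:ℝ) ≤ d := by exact_mod_cast hd
  have h0 : 0 < (d:ℝ) - 1 := by linarith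
  have h := kap_bound hd
  unfold kap at h
  have hpi : Real.pi < 3.15 := Real.pi_lt_d2
  have h1 : 4 * Real.pi / ((d:ℝ) - 1) ≤ 13 / ((d:ℝ) - 1) := by
    apply div_le_div_of_nonneg_right _ h0.le
    linarith
  have h2 : 2 * (2 * Real.pi / ((d:ℝ) - 1)) = 4 * Real.pi / ((d:ℝ) - 1) := by ring
  have h3 : (Real.log d + 28) / ((d:ℝ) - 1) = (Real.log d + 15) / ((d:ℝ) - 1) +
      13 / ((d:ℝ) - 1) := by ring
  unfold wid
  linarith

/-- **Joining points of the Multibrot set.** -/
theorem join {d : ℕ} (hd : 2 ≤ d) {x y : ℂ} (hx : x ∈ multibrotSet d) (hy : y ∈ multibrotSet d)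
    (hxy : dist x y ≤ 1 / 4) :
    ∃ S : Set ℂ, S ⊆ multibrotSet d ∧ IsCompact S ∧ IsConnected S ∧ x ∈ S ∧ y ∈ S ∧
      Metric.diam S ≤ dist x y + (Real.log d + 28) / ((d:ℝ) - 1) := by
  obtain ⟨V, x', e, hVp, hVM, hxV, hx'V, hx'r, hen, hVd, hxin, hxout⟩ := piece hd hx
  obtain ⟨W, y', e', hWp, hWM, hyW, hy'W, hy'r, hen', hWd, hyin, hyout⟩ := piece hd hy
  have hdr : (2:ℝ) ≤ d := by exact_mod_cast hd
  have h0 : 0 < (d:ℝ) - 1 := by linarith
  have hpi := Real.pi_pos
  have hrr := rr_pos hd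
  have hwid := wid_nonneg hd
  set ε : ℝ := 4 * Real.pi / ((d:ℝ) - 1) with hε
  have hεpos : 0 < ε := by positivity
  set δ : ℝ := dist x y with hδ
  have hδ0 : 0 ≤ δ := dist_nonneg
  have hx'y' : dist x' y' ≤ δ := by
    rcases le_or_gt ‖x‖ (rr d) with h1 | h1 <;> rcases le_or_gt ‖y‖ (rr d) with h2 | h2
    · rw [hxin h1, hyin h2]
    · rw [hxin h1, (hyout h2).1, hδ, dist_eq_norm, dist_eq_norm]
      conv_rhs => rw [(hyout h2).2]
      exact retr_in h2.le h1 hen'
    · rw [hyin h2, (hxout h1).1, hδ, dist_comm, dist_comm x y, dist_eq_norm, dist_eq_norm]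
      conv_rhs => rw [(hxout h1).2]
      exact retr_in h1.le h2 hen
    · rw [(hxout h1).1, (hyout h2).1, hδ, dist_eq_norm, dist_eq_norm]
      conv_rhs => rw [(hxout h1).2, (hyout h2).2]
      exact retr_out hrr.le h1.le h2.le hen hen'
  set L : Set ℂ := segment ℝ x' y' with hL
  have hLM : L ⊆ multibrotSet d := by
    intro c hc
    apply disc_subset hd
    have h1 : L ⊆ Metric.closedBall (0:ℂ) (rr d) :=
      (convex_closedBall (0:ℂ) (rr d)).segment_subset (by simpa using hx'r) (by simpa using hy'r)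
    simpa using h1 hc
  have hLp : IsPreconnected L := (convex_segment x' y').isPreconnected
  set S0 : Set ℂ := (V ∪ L) ∪ W with hS0
  have hS0M : S0 ⊆ multibrotSet d := union_subset (union_subset hVM hLM) hWM
  have hS0p : IsPreconnected S0 := by
    apply IsPreconnected.union y'
    · exact Or.inr (right_mem_segment ℝ x' y')
    · exact hy'W
    · exact IsPreconnected.union x' hx'V (left_mem_segment ℝ x' y') hVp hLp
    · exact hWp
  have hns : ∀ (s : ℝ) (u : ℂ), 0 ≤ s → ‖u‖ = 1 → ‖(s:ℂ) * u‖ = s := by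
    intro s u hs hu
    rw [norm_mul, hu, mul_one, Complex.norm_real, Real.norm_eq_abs, abs_of_nonneg hs]
  have hnd : ∀ (s t : ℝ) (u v : ℂ), 0 ≤ s → s ≤ wid d → 0 ≤ t → t ≤ wid d → ‖u‖ = 1 →
      dist (v + s * u) (v + t * u) ≤ wid d := by
    intro s t u v hs hs' ht ht' hu
    rw [dist_eq_norm]
    have : v + (s:ℂ) * u - (v + t * u) = ((s - t : ℝ) : ℂ) * u := by push_cast; ring
    rw [this, norm_mul, hu, mul_one, Complex.norm_real, Real.norm_eq_abs, abs_le]
    constructor <;> linarith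
  have hLL : ∀ a ∈ L, ∀ b ∈ L, dist a b ≤ δ := by
    intro a ha b hb
    have h1 : Metric.diam L ≤ dist x' y' := by
      rw [hL, segment_eq_image_lineMap]
      apply Metric.diam_le_of_forall_dist_le dist_nonneg
      rintro _ ⟨s, hs, rfl⟩ _ ⟨t, ht, rfl⟩
      rw [dist_lineMap_lineMap]
      have : dist s t ≤ 1 := by
        rw [Real.dist_eq, abs_le]
        constructor <;> linarith [hs.1, hs.2, ht.1, ht.2]
      nlinarith [dist_nonneg (x := x') (y := y')]
    have h2 : Bornology.IsBounded L := by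
      apply (Metric.isBounded_closedBall (x := (0:ℂ)) (r := rr d)).subset
      exact (convex_closedBall (0:ℂ) (rr d)).segment_subset (by simpa using hx'r) (by simpa using hy'r)
    exact (Metric.dist_le_diam_of_mem h2 ha hb).trans (h1.trans hx'y')
  have hVL : ∀ a ∈ V, ∀ b ∈ L, dist a b ≤ δ + wid d + 2 * ε := by
    intro a ha b hb
    obtain ⟨s, hs0, hs1, hs2, -⟩ := hVd a ha
    have h1 := hLL x' (left_mem_segment ℝ x' y') b hb
    have h2 : dist (x' + s * e) x' = s := by
      rw [dist_eq_norm, add_sub_cancel_left, hns s e hs0 hen]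
    have h3 := dist_triangle4 a (x' + s * e) x' b
    linarith
  have hWL : ∀ a ∈ W, ∀ b ∈ L, dist a b ≤ δ + wid d + 2 * ε := by
    intro a ha b hb
    obtain ⟨s, hs0, hs1, hs2, -⟩ := hWd a ha
    have h1 := hLL y' (right_mem_segment ℝ x' y') b hb
    have h2 : dist (y' + s * e') y' = s := by
      rw [dist_eq_norm, add_sub_cancel_left, hns s e' hs0 hen']
    have h3 := dist_triangle4 a (y' + s * e') y' b
    linarith
  have hVV : ∀ a ∈ V, ∀ b ∈ V, dist a b ≤ δ + wid d + 2 * ε := by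
    intro a ha b hb
    obtain ⟨s, hs0, hs1, hs2, -⟩ := hVd a ha
    obtain ⟨t, ht0, ht1, ht2, -⟩ := hVd b hb
    have h1 := hnd s t e x' hs0 hs1 ht0 ht1 hen
    have h3 := dist_triangle4 a (x' + s * e) (x' + t * e) b
    rw [dist_comm b] at ht2
    linarith
  have hWW : ∀ a ∈ W, ∀ b ∈ W, dist a b ≤ δ + wid d + 2 * ε := by
    intro a ha b hb
    obtain ⟨s, hs0, hs1, hs2, -⟩ := hWd a ha
    obtain ⟨t, ht0, ht1, ht2, -⟩ := hWd b hb
    have h1 := hnd s t e' y' hs0 hs1 ht0 ht1 hen'
    have h3 := dist_triangle4 a (y' + s * e') (y' + t * e') b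
    rw [dist_comm b] at ht2
    linarith
  have hVW : ∀ a ∈ V, ∀ b ∈ W, dist a b ≤ δ + wid d + 2 * ε := by
    intro a ha b hb
    obtain ⟨s, hs0, hs1, hs2, hs3⟩ := hVd a ha
    obtain ⟨t, ht0, ht1, ht2, ht3⟩ := hWd b hb
    have h3 := dist_triangle4 a (x' + s * e) (y' + t * e') b
    rw [dist_comm b] at ht2
    have h4 : dist (x' + s * e) (y' + t * e') ≤ δ + wid d := by
      have h5 : dist (x' + s * e) x' = s := by
        rw [dist_eq_norm, add_sub_cancel_left, hns s e hs0 hen]
      have h6 : dist y' (y' + t * e') = t := by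
        rw [dist_comm, dist_eq_norm, add_sub_cancel_left, hns t e' ht0 hen']
      have h7 := dist_triangle4 (x' + s * e) x' y' (y' + t * e')
      rw [h5, h6] at h7
      rcases le_or_gt ‖x‖ (rr d) with h1 | h1
      · have := hs3 h1; linarith
      · rcases le_or_gt ‖y‖ (rr d) with h2 | h2
        · have := ht3 h2; linarith
        · have h8 : rr d * ‖e - e'‖ ≤ δ := by
            have h9 := hx'y'
            rw [(hxout h1).1, (hyout h2).1, dist_eq_norm] at h9
            have : (rr d : ℂ) * e - rr d * e' = rr d * (e - e') := by ring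
            rwa [this, norm_mul, Complex.norm_real, Real.norm_eq_abs, abs_of_pos hrr] at h9
          have h9 : ‖e - e'‖ ≤ 1 := by
            by_contra hh
            push Not at hh
            have := quarter_le hd
            nlinarith
          rw [(hxout h1).1, (hyout h2).1, dist_eq_norm]
          exact radial hrr.le hen hen' h9 h8 hs0 hs1 ht0 ht1
    linarith
  have hdiam : ∀ a ∈ S0, ∀ b ∈ S0, dist a b ≤ δ + wid d + 2 * ε := by
    intro a ha b hb
    rcases ha with (ha | ha) | ha <;> rcases hb with (hb | hb) | hb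
    · exact hVV a ha b hb
    · exact hVL a ha b hb
    · exact hVW a ha b hb
    · rw [dist_comm]; exact hVL b hb a ha
    · linarith [hLL a ha b hb]
    · rw [dist_comm]; exact hWL b hb a ha
    · rw [dist_comm]; exact hVW b hb a ha
    · exact hWL a ha b hb
    · exact hWW a ha b hb
  have hclM : closure S0 ⊆ multibrotSet d :=
    (isCompact_multibrot hd).isClosed.closure_subset_iff.mpr hS0M
  refine ⟨closure S0, hclM, ?_, ⟨⟨x, subset_closure (Or.inl (Or.inl hxV))⟩, hS0p.closure⟩,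
    subset_closure (Or.inl (Or.inl hxV)), subset_closure (Or.inr hyW), ?_⟩
  · exact (isCompact_multibrot hd).of_isClosed_subset isClosed_closure hclM
  · rw [Metric.diam_closure]
    refine (Metric.diam_le_of_forall_dist_le (by positivity) hdiam).trans ?_
    have := wid_bound hd
    linarith

end Pool.Agent.N228.LC
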