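import Mathlib
import Pool.Prelude.Def_F_c31e40fa
import Pool.Agent.N228.LC.Upper
import Pool.Agent.N228.LC.Third

set_option autoImplicit false

open Complex Set Topology Filter Bornology N62a1eb23 Pool.Agent.H712R2

namespace Pool.Agent.N228.LC

/-- `joining M x y` is the infimum of the diameters of the compact connected subsets of `M` which
contain `x` and `y`. -/
noncomputable def joining (M : Set ℂ) (x y : ℂ) : ℝ :=
  sInf {D : ℝ | ∃ S : Set ℂ, S ⊆ M ∧ IsCompact S ∧ IsConnected S ∧ x ∈ S ∧ y ∈ S ∧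
    D = Metric.diam S}

/-- The coarse modulus of local connectivity of `M`: the supremum of `joining M x y` over all
points `x, y` of `M` at distance at most `δ`. -/
noncomputable def modulus (M : Set ℂ) (δ : ℝ) : ℝ :=
  sSup {D : ℝ | ∃ x ∈ M, ∃ y ∈ M, dist x y ≤ δ ∧ D = joining M x y}

theorem joining_le {M : Set ℂ} {x y : ℂ} {S : Set ℂ} (h1 : S ⊆ M) (h2 : IsCompact S)
    (h3 : IsConnected S) (h4 : x ∈ S) (h5 : y ∈ S) : joining M x y ≤ Metric.diam S := by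
  apply csInf_le
  · refine ⟨0, ?_⟩
    rintro _ ⟨S, -, -, -, -, -, rfl⟩
    exact Metric.diam_nonneg
  · exact ⟨S, h1, h2, h3, h4, h5, rfl⟩

theorem le_joining {n : ℕ} (hn : 2 ≤ n) {x y : ℂ} (hx : x ∈ multibrotSet n)
    (hy : y ∈ multibrotSet n) {A : ℝ} (h : ∀ S : Set ℂ, S ⊆ multibrotSet n → IsPreconnected S →
      x ∈ S → y ∈ S → A ≤ Metric.diam S) : A ≤ joining (multibrotSet n) x y := by
  apply le_csInf
  · exact ⟨_, multibrotSet n, Subset.rfl, isCompact_multibrot hn, isConnected_multibrot hn, hx, hy,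
      rfl⟩
  · rintro _ ⟨S, h1, h2, h3, h4, h5, rfl⟩
    exact h S h1 h3.isPreconnected h4 h5

theorem joining_le_diam {n : ℕ} (hn : 2 ≤ n) {x y : ℂ} (hx : x ∈ multibrotSet n)
    (hy : y ∈ multibrotSet n) :
    joining (multibrotSet n) x y ≤ Metric.diam (multibrotSet n) :=
  joining_le Subset.rfl (isCompact_multibrot hn) (isConnected_multibrot hn) hx hy

theorem le_modulus {n : ℕ} (hn : 2 ≤ n) {x y : ℂ} (hx : x ∈ multibrotSet n)
    (hy : y ∈ multibrotSet n) {δ : ℝ} (hxy : dist x y ≤ δ) :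
    joining (multibrotSet n) x y ≤ modulus (multibrotSet n) δ := by
  apply le_csSup
  · refine ⟨Metric.diam (multibrotSet n), ?_⟩
    rintro _ ⟨x, hx, y, hy, -, rfl⟩
    exact joining_le_diam hn hx hy
  · exact ⟨x, hx, y, hy, hxy, rfl⟩

theorem modulus_le {n : ℕ} (hn : 2 ≤ n) {δ : ℝ} (h0 : 0 ≤ δ) (hδ : δ ≤ 1 / 4) :
    modulus (multibrotSet n) δ ≤ δ + (Real.log n + 28) / ((n:ℝ) - 1) := by
  apply csSup_le
  · obtain ⟨x, hx⟩ := (isConnected_multibrot hn).nonempty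
    exact ⟨_, x, hx, x, hx, by simpa using h0, rfl⟩
  · rintro _ ⟨x, hx, y, hy, hxy, rfl⟩
    obtain ⟨S, h1, h2, h3, h4, h5, h6⟩ := join hn hx hy (hxy.trans hδ)
    linarith [joining_le h1 h2 h3 h4 h5]

theorem second {n : ℕ} (hn : 3 ≤ n) {x : ℂ} (hx : x ^ (n - 1) = -1) :
    x ∈ multibrotSet n ∧ x * Complex.exp ((2 * Real.pi / ((n:ℝ) - 1) : ℝ) * I) ∈ multibrotSet n ∧
    dist x (x * Complex.exp ((2 * Real.pi / ((n:ℝ) - 1) : ℝ) * I)) ≤ 2 * Real.pi / ((n:ℝ) - 1) ∧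
    ∀ S : Set ℂ, S ⊆ multibrotSet n → IsPreconnected S → x ∈ S →
      x * Complex.exp ((2 * Real.pi / ((n:ℝ) - 1) : ℝ) * I) ∈ S →
      Real.log n / ((n:ℝ) - 1) ≤ Metric.diam S := by
  have hnr : (3:ℝ) ≤ n := by exact_mod_cast hn
  have hm0 : (n:ℝ) - 1 ≠ 0 := by linarith
  have hm0' : (n:ℂ) - 1 ≠ 0 := by
    intro h
    have : ((n:ℝ) - 1 : ℝ) = 0 := by exact_mod_cast h
    exact hm0 this
  have hcast : ((n - 1 : ℕ) : ℂ) = (n:ℂ) - 1 := by
    rw [Nat.cast_sub (by omega)]; simp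
  have hy : (x * Complex.exp ((2 * Real.pi / ((n:ℝ) - 1) : ℝ) * I)) ^ (n - 1) = -1 := by
    rw [mul_pow, hx, ← Complex.exp_nat_mul, hcast]
    have : ((n:ℂ) - 1) * (((2 * Real.pi / ((n:ℝ) - 1) : ℝ) : ℂ) * I) = 2 * Real.pi * I := by
      push_cast; field_simp
    rw [this, Complex.exp_two_pi_mul_I, mul_one]
  obtain ⟨h1, h2, h3, j, h4, h5⟩ := period_two hn hx
  obtain ⟨h6, -⟩ := period_two hn hy
  refine ⟨h1, h6, h3, ?_⟩
  intro S hS hSc hxS hyS
  have h7 := diam_ge (by omega) j hS hSc hxS hyS h4 h5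
  have h8 := depth (d := n) (by omega)
  have h9 := le_max_left ‖x‖ ‖x * Complex.exp ((2 * Real.pi / ((n:ℝ) - 1) : ℝ) * I)‖
  rw [h2] at h9
  rw [h2] at h7
  linarith

end Pool.Agent.N228.LC
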